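import Pool.Agent.helper22.OB.SpecD

/-! # Row ob:DG2 (MP_baa4d7_al) -/

set_option autoImplicit false

namespace Pool.Agent.OB

open Pool.Agent.helper58.DC Pool.Agent.DI Pool.Agent.GR

open Classical in
/-- restriction to a subgroup -/
noncomputable def DG2_r {G : Type} [Group G] (L : Subgroup G) (z : G → ℂ) : G → ℂ :=
  fun x => if x ∈ L then z x else 0

theorem DG2_cc {G : Type} [Group G] (L : Subgroup G) (θ z : G → ℂ) (hθ : ∀ g, g ∉ L → θ g = 0) :
    cc θ z = cc θ (DG2_r L z) := by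
  unfold cc DG2_r
  congr 1
  refine finsum_congr fun x => ?_
  split_ifs with h
  · rfl
  · rw [hθ x h]; simp

theorem DG2_CF {G : Type} [Group G] (L : Subgroup G) (z : G → ℂ) (hz : ∀ x y, z (y * x * y⁻¹) = z x) :
    CF L (DG2_r L z) := by
  refine ⟨fun h hh x => ?_, fun x hx => ?_⟩
  · have h1 : h * x * h⁻¹ ∈ L ↔ x ∈ L := by
      constructor
      · intro h2
        have h3 : x = h⁻¹ * (h * x * h⁻¹) * h := by group
        rw [h3]
        exact L.mul_mem (L.mul_mem (L.inv_mem hh) h2) hh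
      · intro h2
        exact L.mul_mem (L.mul_mem hh h2) (L.inv_mem hh)
    unfold DG2_r
    by_cases h4 : x ∈ L
    · rw [if_pos h4, if_pos (h1.2 h4), hz]
    · rw [if_neg h4, if_neg (fun h5 => h4 (h1.1 h5))]
  · unfold DG2_r
    rw [if_neg hx]

theorem DG2_dl_class {G : Type} [Group G] (x y : G) : (dl : G → ℂ) (y * x * y⁻¹) = dl x := by
  unfold dl
  have h1 : y * x * y⁻¹ = 1 ↔ x = 1 := by
    constructor
    · intro h
      have h3 : x = y⁻¹ * (y * x * y⁻¹) * y := by group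
      rw [h3, h]; group
    · intro h
      rw [h]; group
  by_cases h4 : x = 1
  · rw [if_pos h4, if_pos (h1.2 h4)]
  · rw [if_neg h4, if_neg (fun h5 => h4 (h1.1 h5))]

theorem DG2 (hDG1 : DG1_stmt) (hPWN : PWN_stmt) (hBRP : BRP_stmt) (hC3 : C3_stmt)
    (hB2 : Pool.Agent.DI.B2_stmt) (hCCI : CCI_stmt) (hCVF : CVF_stmt) (hTI : TI_stmt) : DG2_stmt := by
  classical
  intro p M hS G _ _ χ hχ D x hD
  by_contra hcon
  push Not at hcon
  have : Fact p.Prime := ⟨hS.pr⟩
  obtain ⟨hassoc, hbil, hsm, hone, hconj, hsupp, hcomm, hcf, hcfs, hdl, hint, hinm⟩ := hCVF G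
  obtain ⟨c1, c2, -, c4⟩ := hC3 G
  obtain ⟨hfin, hL⟩ := hB2 G (cz D)
  have hχ' : χ ∈ IrrOn (⊤ : Subgroup G) := (hTI G χ).2 hχ
  obtain ⟨x1, x2, x3⟩ := hCCI G ⊤ χ hχ'
  have x3' := x3 p M hS
  -- good functions
  let A : (G → ℂ) → Prop := fun u => (∀ x y, u (y * x * y⁻¹) = u x) ∧ ∀ x, IntAt M (u x)
  have hAt : ∀ u, A u → CF (⊤ : Subgroup G) u := fun u hu =>
    ⟨fun h _ x => hu.1 x h, fun x hx => absurd (Subgroup.mem_top x) hx⟩
  have hACv : ∀ u v, A u → A v → A (cv u v) := fun u v hu hv =>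
    ⟨fun x y => hconj y u v (fun t => hu.1 t y) (fun t => hv.1 t y) x, hint p M hS u v hu.2 hv.2⟩
  have hAdl : A dl := ⟨fun x y => DG2_dl_class x y, fun x => by
    unfold dl
    split_ifs
    · exact IntAt.one hS
    · exact IntAt.zero hS⟩
  have hAr : ∀ u, A u → ∀ x, IntAt M (DG2_r (cz D) u x) := by
    intro u hu x
    unfold DG2_r
    split_ifs
    · exact hu.2 x
    · exact IntAt.zero hS
  let N : (G → ℂ) → Prop := fun u => CF (cz D) u ∧ ∀ x, InM M (u x)
  -- the Brauer homomorphism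
  have hBr : ∀ u v, A u → A v →
      N (DG2_r (cz D) (cv u v) - cv (DG2_r (cz D) u) (DG2_r (cz D) v)) := by
    intro u v hu hv
    have hcu := DG2_CF (cz D) u hu.1
    have hcv := DG2_CF (cz D) v hv.1
    refine ⟨(hcf (cz D) _ _ (DG2_CF (cz D) _ (hACv u v hu hv).1) (hcf (cz D) _ _ hcu hcv).1).2.2,
      fun c => ?_⟩
    rw [Pi.sub_apply]
    by_cases hc : c ∈ cz D
    · have h1 : DG2_r (cz D) (cv u v) c = cv u v c := by
        unfold DG2_r
        rw [if_pos hc]
      rw [h1]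
      exact hBRP p M hS G D hD.pgrp u v hu.1 hv.1 hu.2 hv.2 c hc
    · have h1 : DG2_r (cz D) (cv u v) c = 0 := by
        unfold DG2_r
        rw [if_neg hc]
      rw [h1, hsupp (cz D) _ _ hcu.2 hcv.2 c hc, sub_zero]
      exact InM.zero hS
  have hmul : ∀ θ ∈ IrrOn (cz D), ∀ u v, A u → A v →
      InM M (cc θ (cv u v) - cc θ u * cc θ v) := by
    intro θ hθ u v hu hv
    obtain ⟨y1, y2, y3⟩ := hCCI G (cz D) θ hθ
    have hb := hBr u v hu hv
    have hθ0 : ∀ g, g ∉ cz D → θ g = 0 := hθ.1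
    have h1 := ((y3 p M hS) _ (fun h hh x => hb.1.1 h hh x)).2 hb.2
    rw [(y1 0 (DG2_r (cz D) (cv u v)) (cv (DG2_r (cz D) u) (DG2_r (cz D) v))).2.1,
      ← DG2_cc (cz D) θ _ hθ0,
      y2 _ _ (DG2_CF (cz D) u hu.1) (DG2_CF (cz D) v hv.1), ← DG2_cc (cz D) θ u hθ0,
      ← DG2_cc (cz D) θ v hθ0] at h1
    exact h1
  -- separating functions
  have hsep : ∀ θ ∈ IrrOn (cz D), ∃ g, A g ∧ cc θ g = 0 ∧ ¬ InM M (cc χ g) := by
    intro θ hθ
    obtain ⟨y1, y2, y3⟩ := hCCI G (cz D) θ hθ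
    have h1 := hcon θ hθ
    unfold Induces at h1
    push Not at h1
    obtain ⟨u, hu⟩ := h1
    have i1 : IsIntegral ℤ (omega θ u) := c4 (cz D) θ hθ u
    have i2 : IsIntegral ℤ (omega χ u) := c4 ⊤ χ hχ' u
    have h2 : ¬ InM M (omega θ u - omega χ u) := by
      intro h3
      obtain ⟨c, hc, e⟩ := InM.mcong hS i1 i2 h3
      exact hu c hc e
    obtain ⟨e1, z1⟩ := c2 θ u
    obtain ⟨e2, -⟩ := c2 χ u
    generalize (fun x : G => if x ∈ conjugatesOf u then (1 : ℂ) else 0) = k at e1 z1 e2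
    refine ⟨k - omega θ u • dl, ⟨?_, ?_⟩, ?_, ?_⟩
    · intro a b
      rw [Pi.sub_apply, Pi.sub_apply, z1.1, Pi.smul_apply, Pi.smul_apply, DG2_dl_class]
    · intro a
      rw [Pi.sub_apply, Pi.smul_apply, smul_eq_mul]
      exact IntAt.sub hS (IntAt.of_isIntegral hS (z1.2 a))
        (IntAt.mul hS (IntAt.of_isIntegral hS i1) (hAdl.2 a))
    · rw [(y1 0 _ _).2.1, (y1 (omega θ u) dl dl).2.2.1, (y1 0 dl dl).2.2.2, ← e1]
      ring
    · rw [(x1 0 _ _).2.1, (x1 (omega θ u) dl dl).2.2.1, (x1 0 dl dl).2.2.2, ← e2]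
      intro h3
      apply h2
      have h4 := InM.neg h3
      have h5 : -(omega χ u - omega θ u * 1) = omega θ u - omega χ u := by ring
      rw [h5] at h4
      exact h4
  have hT : ∀ T : Finset (G → ℂ), (∀ θ ∈ T, θ ∈ IrrOn (cz D)) →
      ∃ g, A g ∧ ¬ InM M (cc χ g) ∧ ∀ θ ∈ T, InM M (cc θ g) := by
    intro T
    induction T using Finset.induction_on with
    | empty =>
      intro _
      refine ⟨dl, hAdl, ?_, by simp⟩
      rw [(x1 0 dl dl).2.2.2]
      exact InM.not_one hS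
    | insert θ T hθ ih =>
      intro hT
      obtain ⟨g, hg1, hg2, hg3⟩ := ih (fun θ' h => hT θ' (Finset.mem_insert_of_mem h))
      have hθL := hT θ (Finset.mem_insert_self _ _)
      obtain ⟨f, hf1, hf2, hf3⟩ := hsep θ hθL
      refine ⟨cv g f, hACv _ _ hg1 hf1, ?_, ?_⟩
      · rw [x2 g f (hAt g hg1) (hAt f hf1)]
        intro h
        rcases InM.or hS ((x3' g (fun h _ x => hg1.1 x h)).1 hg1.2)
          ((x3' f (fun h _ x => hf1.1 x h)).1 hf1.2) h with h | h
        · exact hg2 h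
        · exact hf3 h
      · intro θ' hθ'
        have hθ'L := hT θ' hθ'
        have h1 := hmul θ' hθ'L g f hg1 hf1
        obtain ⟨-, -, y3⟩ := hCCI G (cz D) θ' hθ'L
        have ig : IntAt M (cc θ' g) := ((y3 p M hS) g (fun h _ x => hg1.1 x h)).1 hg1.2
        have if' : IntAt M (cc θ' f) := ((y3 p M hS) f (fun h _ x => hf1.1 x h)).1 hf1.2
        have h2 : InM M (cc θ' g * cc θ' f) := by
          rcases Finset.mem_insert.mp hθ' with h | h
          · rw [h, hf2, mul_zero]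
            exact InM.zero hS
          · exact InM.mul_right hS (hg3 θ' h) if'
        have h3 := InM.add hS h1 h2
        rw [sub_add_cancel] at h3
        exact h3
  obtain ⟨g, hg1, hg2, hg3⟩ := hT hfin.toFinset (fun θ h => (Set.Finite.mem_toFinset hfin).mp h)
  have hcg := DG2_CF (cz D) g hg1.1
  obtain ⟨n, hn⟩ := hPWN p M hS G (cz D) (DG2_r (cz D) g) hcg (hAr g hg1) (fun θ hθ => by
    rw [← DG2_cc (cz D) θ g hθ.1]
    exact hg3 θ ((Set.Finite.mem_toFinset hfin).mpr hθ))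
  -- powers
  have hpA : ∀ m, A (cvp g m) := by
    intro m
    induction m with
    | zero => exact hAdl
    | succ m ih => exact hACv _ _ ih hg1
  have hpN : ∀ m, N (DG2_r (cz D) (cvp g m) - cvp (DG2_r (cz D) g) m) := by
    intro m
    induction m with
    | zero =>
      have h1 : DG2_r (cz D) (cvp g 0) - cvp (DG2_r (cz D) g) 0 = 0 := by
        funext c
        show DG2_r (cz D) dl c - dl c = 0
        unfold DG2_r dl
        by_cases hc : c = 1
        · rw [hc, if_pos (one_mem _), sub_self]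
        · rw [if_neg hc]
          split_ifs <;> simp
      rw [h1]
      exact ⟨⟨fun _ _ _ => rfl, fun _ _ => rfl⟩, fun x => InM.zero hS⟩
    | succ m ih =>
      have h1 := hBr (cvp g m) g (hpA m) hg1
      have h2 : N (cv (DG2_r (cz D) (cvp g m) - cvp (DG2_r (cz D) g) m) (DG2_r (cz D) g)) := by
        rw [hcomm (cz D) _ _ ih.1 hcg.2]
        exact ⟨(hcf (cz D) _ _ hcg ih.1).1, hinm p M hS _ _ (hAr g hg1) ih.2⟩
      have h3 : DG2_r (cz D) (cvp g (m + 1)) - cvp (DG2_r (cz D) g) (m + 1) =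
          (DG2_r (cz D) (cv (cvp g m) g) - cv (DG2_r (cz D) (cvp g m)) (DG2_r (cz D) g)) +
          cv (DG2_r (cz D) (cvp g m) - cvp (DG2_r (cz D) g) m) (DG2_r (cz D) g) := by
        show DG2_r (cz D) (cv (cvp g m) g) - cv (cvp (DG2_r (cz D) g) m) (DG2_r (cz D) g) = _
        rw [(hbil (DG2_r (cz D) (cvp g m)) (cvp (DG2_r (cz D) g) m) (DG2_r (cz D) g)).2.2.1]
        abel
      rw [h3]
      exact ⟨(hcf (cz D) _ _ h1.1 h2.1).2.1, fun x => InM.add hS (h1.2 x) (h2.2 x)⟩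
  have hw : ∀ y ∈ cz D, InM M (cvp g n y) := by
    intro y hy
    have h1 := (hpN n).2 y
    have h2 := InM.add hS h1 (hn y)
    rw [Pi.sub_apply, sub_add_cancel] at h2
    have h3 : DG2_r (cz D) (cvp g n) y = cvp g n y := by
      unfold DG2_r
      rw [if_pos hy]
    rw [h3] at h2
    exact h2
  have hcc := hDG1 p M hS G χ hχ D x hD (cvp g n) (hpA n).1 (hpA n).2 hw
  have hpow : ∀ m, cc χ (cvp g m) = cc χ g ^ m := by
    intro m
    induction m with
    | zero =>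
      show cc χ dl = _
      rw [(x1 0 dl dl).2.2.2, pow_zero]
    | succ m ih =>
      show cc χ (cv (cvp g m) g) = _
      rw [x2 _ _ (hAt _ (hpA m)) (hAt g hg1), ih, pow_succ]
  rw [hpow n] at hcc
  exact hg2 (InM.of_pow hS ((x3' g (fun h _ x => hg1.1 x h)).1 hg1.2) hcc)

end Pool.Agent.OB
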