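import Pool.Agent.helper22.OB.SpecD

/-! # Row ob:DG3 (MP_baa4d7_al) -/

set_option autoImplicit false

namespace Pool.Agent.OB

open Pool.Agent.helper58.DC Pool.Agent.DI Pool.Agent.GR

theorem DG3_pow (N p : ℕ) (hN : N ≠ 0) (hp : p.Prime) :
    ∃ (k m r : ℕ), N = p ^ k * m ∧ ¬ p ∣ m ∧ r ≡ 1 [MOD p ^ k] ∧ m ∣ r := by
  obtain ⟨k, m, hm, hNm⟩ := Nat.exists_eq_pow_mul_and_not_dvd hN p hp.ne_one
  have hcop : Nat.Coprime (p ^ k) m := Nat.Coprime.pow_left _ ((Nat.Prime.coprime_iff_not_dvd hp).2 hm)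
  obtain ⟨r, hr1, hr2⟩ := Nat.chineseRemainder hcop 1 0
  exact ⟨k, m, r, hNm, hm, hr1, (Nat.modEq_zero_iff_dvd).1 hr2⟩

/-- an exponent which projects to the `p`-part -/
theorem DG3_exp (p : ℕ) (hp : p.Prime) (G : Type) [Group G] [Finite G] :
    ∃ r : ℕ, (∀ z : G, (∃ j : ℕ, orderOf z = p ^ j) → z ^ r = z) ∧
      ∀ x : G, ¬ p ∣ orderOf x → x ^ r = 1 := by
  obtain ⟨k, m', r, hN, hm', hr1, hr2⟩ := DG3_pow (Nat.card G) p Nat.card_pos.ne' hp
  refine ⟨r, fun z hz => ?_, fun x hx => ?_⟩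
  · obtain ⟨j, hj⟩ := hz
    have h1 : orderOf z ∣ Nat.card G := orderOf_dvd_natCard z
    have h2 : orderOf z ∣ p ^ k := by
      rw [hN] at h1
      refine Nat.Coprime.dvd_of_dvd_mul_right ?_ h1
      rw [hj]
      exact Nat.Coprime.pow_left _ ((Nat.Prime.coprime_iff_not_dvd hp).2 hm')
    have h3 : r ≡ 1 [MOD orderOf z] := hr1.of_dvd h2
    have h4 := (pow_eq_pow_iff_modEq (x := z)).2 h3
    rw [pow_one] at h4
    exact h4
  · rw [← orderOf_dvd_iff_pow_eq_one]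
    refine dvd_trans ?_ hr2
    have h1 : orderOf x ∣ Nat.card G := orderOf_dvd_natCard x
    rw [hN] at h1
    refine Nat.Coprime.dvd_of_dvd_mul_left ?_ h1
    exact (Nat.Coprime.pow_left _ ((Nat.Prime.coprime_iff_not_dvd hp).2 hx)).symm

/-- roots of unity of `p`-power order are `1` modulo `M` -/
theorem DG3_root (p : ℕ) (M : Ideal (integralClosure ℤ ℂ)) (hS : Setup p M) (ε : ℂ) (k : ℕ)
    (h : ε ^ p ^ k = 1) : InM M (ε - 1) := by
  have hpk : 0 < p ^ k := pow_pos hS.pr.pos k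
  have hint : IsIntegral ℤ ε := by
    refine ⟨Polynomial.X ^ (p ^ k) - 1, ?_, ?_⟩
    · exact Polynomial.monic_X_pow_sub_C (1 : ℤ) hpk.ne'
    · simp [h]
  let e : integralClosure ℤ ℂ := ⟨ε, hint⟩
  have he : e ^ p ^ k = 1 := Subtype.ext (by
    show (e : ℂ) ^ p ^ k = 1
    exact h)
  obtain ⟨r, hr⟩ := exists_add_pow_prime_pow_eq hS.pr (e - 1) 1 k
  rw [sub_add_cancel, he, one_pow] at hr
  have h1 : (e - 1) ^ p ^ k = -((p : integralClosure ℤ ℂ) * ((e - 1) * r)) := by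
    linear_combination -hr
  have h2 : (e - 1) ^ p ^ k ∈ M := by
    rw [h1]
    exact M.neg_mem (M.mul_mem_right _ hS.mem)
  have h3 : e - 1 ∈ M := hS.prime.mem_of_pow_mem _ h2
  have h4 := InM.coe hS h3
  have h5 : ((e - 1 : integralClosure ℤ ℂ) : ℂ) = ε - 1 := rfl
  rw [h5] at h4
  exact h4

theorem DG3_const {G : Type} [Group G] [Finite G] (H : Subgroup G) (c : ℂ) :
    ∑ᶠ t ∈ (H : Set G), c = (Nat.card H : ℂ) * c := by
  classical
  have : Fintype G := Fintype.ofFinite G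
  rw [finsum_mem_eq_toFinset_sum, Finset.sum_const, Set.toFinset_card, nsmul_eq_mul,
    ← Nat.card_eq_fintype_card]
  rfl

theorem DG3 (hDGN : DGN_stmt) (hCCI : CCI_stmt) (_hC3 : C3_stmt) (hB2 : Pool.Agent.DI.B2_stmt)
    (hSCH : SCH_stmt) : DG3_stmt := by
  classical
  intro p M hS G _ _ D x z hx hDx hDp hcard hz hzc θ hθ
  have hp : Fact p.Prime := ⟨hS.pr⟩
  have : Fintype G := Fintype.ofFinite G
  obtain ⟨m, hm, hm1, hm2⟩ := hDGN p G D x z hx hDx hDp hcard hz hzc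
  obtain ⟨-, hB⟩ := hB2 G (cz D)
  obtain ⟨⟨n1, hn1, hn1', -⟩, hθc, hθi, hθ0, -⟩ := hB θ hθ
  have hθ1 : θ 1 ≠ 0 := by
    rw [hn1']
    exact_mod_cast hn1.ne'
  have hcard0 : (Nat.card (cz D) : ℂ) ≠ 0 := by exact_mod_cast Nat.card_pos.ne'
  have hDcz : ∀ h ∈ cz D, ∀ d ∈ D, d * h = h * d := by
    intro h hh d hd
    rw [Subgroup.mem_centralizer_iff] at hh
    exact hh d hd
  -- multiplicativity
  have hprod : ∀ z' ∈ D, ∀ x' : G, (∀ d ∈ D, z' * d = d * z') → x' ∈ cz D →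
      θ (z' * x') = θ z' / θ 1 * θ x' := by
    intro z' hz' x' hzc' hx'
    have h1 := hSCH G (cz D) θ hθ x' hx' z'
    have h2 : ∑ᶠ t ∈ ((cz D : Subgroup G) : Set G), θ (x' * (t * z' * t⁻¹)) =
        ∑ᶠ t ∈ ((cz D : Subgroup G) : Set G), θ (x' * z') := by
      refine finsum_mem_congr rfl fun t ht => ?_
      have h3 := hDcz t ht z' hz'
      rw [← h3]
      congr 2
      group
    rw [h2, DG3_const] at h1
    have h3 : θ (x' * z') * θ 1 = θ x' * θ z' := by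
      have h4 : (Nat.card (cz D) : ℂ) * (θ (x' * z') * θ 1) = (Nat.card (cz D) : ℂ) * (θ x' * θ z') := by
        linear_combination h1
      exact mul_left_cancel₀ hcard0 h4
    rw [hDcz x' hx' z' hz']
    field_simp
    linear_combination h3
  -- the ratios
  have hε : ∀ z' ∈ D, (∀ d ∈ D, z' * d = d * z') → InM M (θ z' / θ 1 - 1) := by
    intro z' hz' hzc'
    have hzcz : z' ∈ cz D := by
      rw [Subgroup.mem_centralizer_iff]
      intro d hd
      exact (hzc' d hd).symm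
    have h1 : ∀ n : ℕ, θ (z' ^ n) = (θ z' / θ 1) ^ n * θ 1 := by
      intro n
      induction n with
      | zero => simp
      | succ n ih =>
        rw [pow_succ', hprod z' hz' (z' ^ n) hzc' ((cz D).pow_mem hzcz n), ih, pow_succ']
        ring
    obtain ⟨k, hk⟩ := hDp ⟨z', hz'⟩
    have hk' : z' ^ p ^ k = 1 := congrArg Subtype.val hk
    have h2 := h1 (p ^ k)
    rw [hk'] at h2
    apply DG3_root p M hS _ k
    have h3 : 1 * θ 1 = (θ z' / θ 1) ^ p ^ k * θ 1 := by rw [one_mul]; exact h2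
    exact (mul_right_cancel₀ hθ1 h3).symm
  -- the finite sets
  let X : Finset G := Finset.univ.filter fun x' => x' ∈ cz D ∧ x' ∈ conjugatesOf x
  let Z : G → Finset G := fun x' => Finset.univ.filter fun z' =>
    z' ∈ D ∧ (∀ d ∈ D, z' * d = d * z') ∧ z' * x' ∈ conjugatesOf (z * x)
  let Y : Finset G := Finset.univ.filter fun y => y ∈ cz D ∧ y ∈ conjugatesOf (z * x)
  have hXm : ∀ x', x' ∈ X ↔ x' ∈ cz D ∧ x' ∈ conjugatesOf x := fun x' => by
    simp only [X, Finset.mem_filter, Finset.mem_univ, true_and]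
  have hZm : ∀ x' z', z' ∈ Z x' ↔ z' ∈ D ∧ (∀ d ∈ D, z' * d = d * z') ∧
      z' * x' ∈ conjugatesOf (z * x) := fun x' z' => by
    simp only [Z, Finset.mem_filter, Finset.mem_univ, true_and]
  have hYm : ∀ y, y ∈ Y ↔ y ∈ cz D ∧ y ∈ conjugatesOf (z * x) := fun y => by
    simp only [Y, Finset.mem_filter, Finset.mem_univ, true_and]
  have hZc : ∀ x' ∈ X, (Z x').card = m := by
    intro x' hx'
    rw [← hm1 x' ((hXm x').1 hx').1 ((hXm x').1 hx').2, Nat.card_eq_fintype_card, Fintype.card_subtype]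
  let u : G → ℂ := fun x' => if x' ∈ X then ∑ z' ∈ Z x', (θ z' / θ 1 - 1) else 0
  -- class function
  have hconj : ∀ (g a h : G), a ∈ conjugatesOf g → h * a * h⁻¹ ∈ conjugatesOf g := by
    intro g a h ha
    have ha' : IsConj g a := ha
    exact ha'.trans (isConj_iff.2 ⟨h, rfl⟩)
  have huc : ∀ h ∈ cz D, ∀ a, u (h * a * h⁻¹) = u a := by
    have key : ∀ h ∈ cz D, ∀ a ∈ X, h * a * h⁻¹ ∈ X ∧ Z a ⊆ Z (h * a * h⁻¹) := by
      intro h hh a ha
      rw [hXm] at ha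
      refine ⟨(hXm _).2 ⟨(cz D).mul_mem ((cz D).mul_mem hh ha.1) ((cz D).inv_mem hh),
        hconj x a h ha.2⟩, fun z' hz' => ?_⟩
      rw [hZm] at hz' ⊢
      refine ⟨hz'.1, hz'.2.1, ?_⟩
      have h1 : z' * (h * a * h⁻¹) = h * (z' * a) * h⁻¹ := by
        have h2 := hDcz h hh z' hz'.1
        calc z' * (h * a * h⁻¹) = (z' * h) * a * h⁻¹ := by group
          _ = (h * z') * a * h⁻¹ := by rw [h2]
          _ = h * (z' * a) * h⁻¹ := by group
      rw [h1]
      exact hconj _ _ h hz'.2.2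
    have key2 : ∀ h ∈ cz D, ∀ a, h * a * h⁻¹ ∈ X → a ∈ X ∧ Z (h * a * h⁻¹) ⊆ Z a := by
      intro h hh a ha
      have h1 := key h⁻¹ ((cz D).inv_mem hh) _ ha
      have h2 : h⁻¹ * (h * a * h⁻¹) * h⁻¹⁻¹ = a := by group
      rw [h2] at h1
      exact h1
    intro h hh a
    by_cases ha : a ∈ X
    · have h1 := key h hh a ha
      have h2 := key2 h hh a h1.1
      show (if h * a * h⁻¹ ∈ X then ∑ z' ∈ Z (h * a * h⁻¹), (θ z' / θ 1 - 1) else 0) =
        if a ∈ X then ∑ z' ∈ Z a, (θ z' / θ 1 - 1) else 0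
      rw [if_pos ha, if_pos h1.1, Finset.Subset.antisymm h2.2 h1.2]
    · have h1 : h * a * h⁻¹ ∉ X := fun h2 => ha (key2 h hh a h2).1
      show (if h * a * h⁻¹ ∈ X then ∑ z' ∈ Z (h * a * h⁻¹), (θ z' / θ 1 - 1) else 0) =
        if a ∈ X then ∑ z' ∈ Z a, (θ z' / θ 1 - 1) else 0
      rw [if_neg ha, if_neg h1]
  have hum : ∀ a, InM M (u a) := by
    intro a
    show InM M (if a ∈ X then ∑ z' ∈ Z a, (θ z' / θ 1 - 1) else 0)
    split_ifs with ha
    · exact InM.sum hS _ fun z' hz' => hε z' ((hZm a z').1 hz').1 ((hZm a z').1 hz').2.1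
    · exact InM.zero hS
  obtain ⟨-, -, y3⟩ := hCCI G (cz D) θ hθ
  have hfin := ((y3 p M hS) u huc).2 hum
  refine ⟨m, hm, ?_⟩
  have hcc : cc θ u = omega θ (z * x) - m * omega θ x := by
    have s1 : ∑ᶠ y ∈ conjugatesOf (z * x), θ y = ∑ y ∈ Y, θ y := by
      rw [finsum_mem_eq_toFinset_sum]
      symm
      apply Finset.sum_subset
      · intro y hy
        rw [Set.mem_toFinset]
        exact ((hYm y).1 hy).2
      · intro y hy hy2
        rw [Set.mem_toFinset] at hy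
        exact hθ0 y fun h => hy2 ((hYm y).2 ⟨h, hy⟩)
    have s2 : ∑ᶠ y ∈ conjugatesOf x, θ y = ∑ y ∈ X, θ y := by
      rw [finsum_mem_eq_toFinset_sum]
      symm
      apply Finset.sum_subset
      · intro y hy
        rw [Set.mem_toFinset]
        exact ((hXm y).1 hy).2
      · intro y hy hy2
        rw [Set.mem_toFinset] at hy
        exact hθ0 y fun h => hy2 ((hXm y).2 ⟨h, hy⟩)
    have s3 : ∑ᶠ a, u a * θ a = ∑ a ∈ X, ∑ z' ∈ Z a, (θ (z' * a) - θ a) := by
      rw [finsum_eq_sum_of_fintype]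
      have h1 : ∑ a, u a * θ a = ∑ a ∈ X, u a * θ a := by
        symm
        apply Finset.sum_subset (Finset.subset_univ _)
        intro a _ ha
        show (if a ∈ X then ∑ z' ∈ Z a, (θ z' / θ 1 - 1) else 0) * θ a = 0
        rw [if_neg ha, zero_mul]
      rw [h1]
      refine Finset.sum_congr rfl fun a ha => ?_
      show (if a ∈ X then ∑ z' ∈ Z a, (θ z' / θ 1 - 1) else 0) * θ a = _
      rw [if_pos ha, Finset.sum_mul]
      refine Finset.sum_congr rfl fun z' hz' => ?_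
      rw [hprod z' ((hZm a z').1 hz').1 a ((hZm a z').1 hz').2.1 ((hXm a).1 ha).1]
      ring
    have s4 : ∑ a ∈ X, ∑ z' ∈ Z a, θ (z' * a) = ∑ y ∈ Y, θ y := by
      obtain ⟨r, hr1, hr2⟩ := DG3_exp p hS.pr G
      have hord : ∀ a ∈ X, a ^ r = 1 := by
        intro a ha
        have ha' : IsConj x a := ((hXm a).1 ha).2
        obtain ⟨g, hg⟩ := isConj_iff.1 ha'
        rw [← hg, conj_pow, hr2 x hx]
        group
      have hzr : ∀ z' ∈ D, z' ^ r = z' := by
        intro z' hz'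
        apply hr1
        obtain ⟨j, hj⟩ := (IsPGroup.iff_orderOf.1 hDp) ⟨z', hz'⟩
        rw [Subgroup.orderOf_mk] at hj
        exact ⟨j, hj⟩
      have hpart : ∀ a ∈ X, ∀ z' ∈ Z a, (z' * a) ^ r = z' := by
        intro a ha z' hz'
        have hc : Commute z' a := hDcz a ((hXm a).1 ha).1 z' ((hZm a z').1 hz').1
        rw [hc.mul_pow, hord a ha, hzr z' ((hZm a z').1 hz').1, mul_one]
      rw [Finset.sum_sigma']
      refine Finset.sum_bij (fun s _ => s.2 * s.1) ?_ ?_ ?_ ?_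
      · rintro ⟨a, z'⟩ hs
        rw [Finset.mem_sigma] at hs
        obtain ⟨ha, hz'⟩ := hs
        rw [hYm]
        refine ⟨?_, ((hZm a z').1 hz').2.2⟩
        refine (cz D).mul_mem ?_ ((hXm a).1 ha).1
        rw [Subgroup.mem_centralizer_iff]
        intro d hd
        exact (((hZm a z').1 hz').2.1 d hd).symm
      · rintro ⟨a, z'⟩ hs ⟨b, w'⟩ ht heq
        rw [Finset.mem_sigma] at hs ht
        have h1 := hpart a hs.1 z' hs.2
        have h2 := hpart b ht.1 w' ht.2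
        have heq' : z' * a = w' * b := heq
        rw [heq', h2] at h1
        subst h1
        have h3 : a = b := mul_left_cancel heq'
        subst h3
        rfl
      · intro y hy
        rw [hYm] at hy
        obtain ⟨z', hz', a, ha, hzc', hax, hya⟩ := hm2 y hy.1 hy.2
        refine ⟨⟨a, z'⟩, ?_, hya.symm⟩
        rw [Finset.mem_sigma]
        refine ⟨(hXm a).2 ⟨ha, hax⟩, (hZm a z').2 ⟨hz', hzc', ?_⟩⟩
        rw [← hya]
        exact hy.2
      · rintro ⟨a, z'⟩ _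
        rfl
    have s5 : ∑ a ∈ X, ∑ z' ∈ Z a, (θ (z' * a) - θ a) = ∑ y ∈ Y, θ y - m * ∑ a ∈ X, θ a := by
      have h1 : ∀ a ∈ X, ∑ z' ∈ Z a, (θ (z' * a) - θ a) = ∑ z' ∈ Z a, θ (z' * a) - m * θ a := by
        intro a ha
        rw [Finset.sum_sub_distrib, Finset.sum_const, hZc a ha, nsmul_eq_mul]
      rw [Finset.sum_congr rfl h1, Finset.sum_sub_distrib, s4, Finset.mul_sum]
    unfold cc omega
    rw [s3, s5, s1, s2]
    ring
  rw [← hcc]
  exact hfin

end Pool.Agent.OB
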