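import Pool.Agent.helper22.OB.SpecD

/-! # Row ob:DG4 (MP_baa4d7_al) -/

set_option autoImplicit false

namespace Pool.Agent.OB

open Pool.Agent.helper58.DC Pool.Agent.DI Pool.Agent.GR
open scoped Pointwise

/-- Sylow: conjugation into `D` inside a group `C` in which `D` has the full `p`-part -/
theorem DG4_syl {C : Type} [Group C] [Finite C] (p : ℕ) [hp : Fact p.Prime] (D : Subgroup C)
    (hD : Nat.card D = p ^ (Nat.card C).factorization p) (y : C) (hy : ∃ k : ℕ, y ^ p ^ k = 1) :
    ∃ c : C, c * y * c⁻¹ ∈ D := by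
  let P : Sylow p C := Sylow.ofCard D hD
  have hz : IsPGroup p (Subgroup.zpowers y) := by
    obtain ⟨k, hk⟩ := hy
    intro w
    refine ⟨k, ?_⟩
    obtain ⟨w, hw⟩ := w
    obtain ⟨i, hi⟩ := Subgroup.mem_zpowers_iff.1 hw
    apply Subtype.ext
    show w ^ p ^ k = 1
    rw [← hi, ← zpow_natCast, ← zpow_mul, mul_comm, zpow_mul, zpow_natCast, hk, one_zpow]
  obtain ⟨Q, hQ⟩ := hz.exists_le_sylow
  obtain ⟨c, hc⟩ := MulAction.exists_smul_eq C Q P
  refine ⟨c, ?_⟩
  have h1 : y ∈ Q := hQ (Subgroup.mem_zpowers y)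
  have h2 : MulAut.conj c • y ∈ MulAut.conj c • (Q : Subgroup C) :=
    Subgroup.smul_mem_pointwise_smul _ _ _ h1
  have h3 : MulAut.conj c • (Q : Subgroup C) = D := by
    rw [← Sylow.coe_subgroup_smul, hc]
    rfl
  rw [h3, MulAut.smul_def, MulAut.conj_apply] at h2
  exact h2

theorem DG4_pow (N p : ℕ) (hN : N ≠ 0) (hp : p.Prime) :
    ∃ (k m r : ℕ), N = p ^ k * m ∧ ¬ p ∣ m ∧ r ≡ 1 [MOD p ^ k] ∧ m ∣ r := by
  obtain ⟨k, m, hm, hNm⟩ := Nat.exists_eq_pow_mul_and_not_dvd hN p hp.ne_one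
  have hcop : Nat.Coprime (p ^ k) m := Nat.Coprime.pow_left _ ((Nat.Prime.coprime_iff_not_dvd hp).2 hm)
  obtain ⟨r, hr1, hr2⟩ := Nat.chineseRemainder hcop 1 0
  exact ⟨k, m, r, hNm, hm, hr1, (Nat.modEq_zero_iff_dvd).1 hr2⟩

theorem DG4 (hDG2 : DG2_stmt) (hDG3 : DG3_stmt) (hC3 : C3_stmt) (hTI : TI_stmt) : DG4_stmt := by
  intro p a M hS G _ _ χ hχ D x hD z hz hzc hze
  have hp : Fact p.Prime := ⟨hS.pr⟩
  have hχ' : χ ∈ IrrOn (⊤ : Subgroup G) := (hTI G χ).2 hχ
  obtain ⟨θ, hθ, hind⟩ := hDG2 p M hS G χ hχ D x hD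
  obtain ⟨-, -, -, c4⟩ := hC3 G
  have hcong : ∀ u, InM M (omega θ u - omega χ u) := by
    intro u
    obtain ⟨c, hc, e⟩ := hind u
    rw [e]
    exact InM.coe hS hc
  obtain ⟨m, hm, h3⟩ := hDG3 p M hS G D x z hD.reg hD.le hD.pgrp hD.card hz hzc θ hθ
  have hxz : x * z = z * x := by
    have := hD.le hz
    rw [Subgroup.mem_centralizer_iff] at this
    exact this x rfl
  refine ⟨?_, ?_⟩
  · intro h
    -- `omega θ (z x)` is in `M`
    have h4 : InM M (omega θ (z * x)) := by
      have := InM.add hS (hcong (z * x)) h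
      rw [sub_add_cancel] at this
      exact this
    have h5 : InM M ((m : ℂ) * omega θ x) := by
      have := InM.sub hS h4 h3
      rw [sub_sub_cancel] at this
      exact this
    rcases InM.or hS (IntAt.natCast hS m) (IntAt.of_isIntegral hS (c4 _ θ hθ x)) h5 with h6 | h6
    · exact hm ((InM.natCast hS m).1 h6)
    · apply hD.ne
      have := InM.sub hS h6 (hcong x)
      rw [sub_sub_cancel] at this
      exact this
  · intro y hy
    obtain ⟨k, m', r, hN, hm', hr1, hr2⟩ := DG4_pow (Nat.card G) p Nat.card_pos.ne' hS.pr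
    -- the `p`-part
    have hzr : z ^ r = z := by
      obtain ⟨j, hj⟩ := (IsPGroup.iff_orderOf.1 hD.pgrp) ⟨z, hz⟩
      rw [Subgroup.orderOf_mk] at hj
      have h1 : orderOf z ∣ Nat.card G := orderOf_dvd_natCard z
      have h2 : orderOf z ∣ p ^ k := by
        rw [hN] at h1
        refine Nat.Coprime.dvd_of_dvd_mul_right ?_ h1
        rw [hj]
        exact Nat.Coprime.pow_left _ ((Nat.Prime.coprime_iff_not_dvd hS.pr).2 hm')
      have h3 : r ≡ 1 [MOD orderOf z] := hr1.of_dvd h2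
      have h4 := (pow_eq_pow_iff_modEq (x := z)).2 h3
      rw [pow_one] at h4
      exact h4
    have hxr : x ^ r = 1 := by
      rw [← orderOf_dvd_iff_pow_eq_one]
      refine dvd_trans ?_ hr2
      have h1 : orderOf x ∣ Nat.card G := orderOf_dvd_natCard x
      rw [hN] at h1
      refine Nat.Coprime.dvd_of_dvd_mul_left ?_ h1
      exact (Nat.Coprime.pow_left _ ((Nat.Prime.coprime_iff_not_dvd hS.pr).2 hD.reg)).symm
    have hcom : Commute z x := hxz.symm
    set y₁ : G := y ^ r with hy₁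
    have e1 : y₁ ^ p ^ a = z := by
      rw [hy₁, ← pow_mul, mul_comm, pow_mul, hy, hcom.mul_pow, hzr, hxr, mul_one]
    have e2 : ∃ j : ℕ, y₁ ^ p ^ j = 1 := by
      refine ⟨k, ?_⟩
      obtain ⟨s, hs⟩ := hr2
      rw [hy₁, ← pow_mul, hs]
      have h1 : m' * s * p ^ k = Nat.card G * s := by rw [hN]; ring
      rw [h1, pow_mul, pow_card_eq_one', one_pow]
    have hyy : Commute y₁ y := (Commute.refl y).pow_left r
    have cz1 : Commute y₁ z := by
      rw [← e1]
      exact (Commute.refl y₁).pow_right _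
    have cx1 : Commute y₁ x := by
      have h1 : x = z⁻¹ * y ^ p ^ a := by rw [hy]; group
      rw [h1]
      exact (cz1.inv_right).mul_right (hyy.pow_right _)
    -- the group `C`
    set C : Subgroup G := Subgroup.centralizer {x} ⊓ Subgroup.centralizer {z} with hC
    have hDC : D ≤ C := by
      refine le_inf hD.le ?_
      intro d hd
      rw [Subgroup.mem_centralizer_iff]
      intro w hw
      rw [Set.mem_singleton_iff] at hw
      rw [hw]
      exact hzc d hd
    have hyC : y₁ ∈ C := by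
      refine Subgroup.mem_inf.2 ⟨?_, ?_⟩
      · rw [Subgroup.mem_centralizer_iff]
        intro w hw
        rw [Set.mem_singleton_iff] at hw
        rw [hw]
        exact cx1.eq.symm
      · rw [Subgroup.mem_centralizer_iff]
        intro w hw
        rw [Set.mem_singleton_iff] at hw
        rw [hw]
        exact cz1.eq.symm
    have hcard : Nat.card (D.subgroupOf C) = p ^ (Nat.card C).factorization p := by
      have h1 : Nat.card (D.subgroupOf C) = Nat.card D :=
        Nat.card_congr (Subgroup.subgroupOfEquivOfLe hDC).toEquiv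
      rw [h1, hD.card]
      unfold pp
      congr 1
      have h2 : Nat.card D ∣ Nat.card C := Subgroup.card_dvd_of_le hDC
      have h3 : Nat.card C ∣ Nat.card (Subgroup.centralizer ({x} : Set G)) :=
        Subgroup.card_dvd_of_le inf_le_left
      rw [hD.card] at h2
      unfold pp at h2
      rw [Nat.factorization_def _ hS.pr]
      apply le_antisymm
      · exact (padicValNat_dvd_iff_le (hp := hp) Nat.card_pos.ne').1 h2
      · exact (padicValNat_dvd_iff_le (hp := hp) Nat.card_pos.ne').1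
          ((pow_padicValNat_dvd).trans h3)
    obtain ⟨c, hc⟩ := DG4_syl p (D.subgroupOf C) hcard ⟨y₁, hyC⟩ (by
      obtain ⟨j, hj⟩ := e2
      exact ⟨j, Subtype.ext hj⟩)
    rw [Subgroup.mem_subgroupOf] at hc
    have hc' : (c : G) * y₁ * (c : G)⁻¹ ∈ D := hc
    refine hze _ hc' ?_
    have h1 : ((c : G) * y₁ * (c : G)⁻¹) ^ p ^ a = (c : G) * y₁ ^ p ^ a * (c : G)⁻¹ := conj_pow
    rw [h1, e1]
    have h2 := (Subgroup.mem_inf.1 c.2).2
    rw [Subgroup.mem_centralizer_iff] at h2
    have h3 := h2 z rfl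
    rw [← h3]
    group

end Pool.Agent.OB
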