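import Pool.Agent.helper12.OB.SpecA

/-! # Row ob:LLB (MP_baa4d7_al) -/

set_option autoImplicit false

namespace Pool.Agent.OB

open Pool.Agent.helper58.DC Pool.Agent.DI Pool.Agent.GR

theorem LLB_dec {G : Type} [Group G] [Finite G] (p : ℕ) (hp : p.Prime) (κ : G) :
    ∃ r : ℤ, PEl p (κ * (κ ^ r) ^ (-(p : ℤ))) := by
  have hn : orderOf κ ≠ 0 := (orderOf_pos κ).ne'
  obtain ⟨a, m, hm, hnm⟩ := Nat.exists_eq_pow_mul_and_not_dvd hn p hp.ne_one
  have hcop : Nat.gcd p m = 1 := (Nat.Prime.coprime_iff_not_dvd hp).2 hm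
  have hbez := Nat.gcd_eq_gcd_ab p m
  rw [hcop] at hbez
  refine ⟨Nat.gcdA p m, a, ?_⟩
  have h1 : κ * (κ ^ (Nat.gcdA p m)) ^ (-(p : ℤ)) = κ ^ ((m : ℤ) * Nat.gcdB p m) := by
    rw [← zpow_mul, ← zpow_one_add]
    congr 1
    push_cast at hbez
    linarith
  rw [h1, ← zpow_natCast, ← zpow_mul]
  have h2 : (m : ℤ) * Nat.gcdB p m * ((p ^ a : ℕ) : ℤ) = (orderOf κ : ℤ) * Nat.gcdB p m := by
    rw [hnm]
    push_cast
    ring
  rw [h2, zpow_mul, zpow_natCast, pow_orderOf_eq_one, one_zpow]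

theorem LLB_cz_le_nz {G : Type} [Group G] (H : Subgroup G) : cz H ≤ nz H :=
  Subgroup.centralizer_le_normalizer _

theorem LLB (hLLR : LLR_stmt) (hWCJ : WCJ_stmt) (hA2 : A2_stmt) : LLB_stmt := by
  intro G _ _ p hp H h₀ κ hh₀ hκ hcomm hC
  obtain ⟨-, hW2, hW3⟩ := hWCJ G p
  obtain ⟨⟨Y, hY⟩, hYall⟩ := hA2 G p H
  obtain ⟨hYH, hYp, hHY, hnn, -⟩ := hYall Y hY
  by_cases hYb : Y = ⊥
  · -- Case B
    have hcen : ∀ y ∈ H, (∀ k ∈ H, k * y = y * k) → PEl p y → y = 1 := by
      intro y hy hyc hyp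
      have h1 : Subgroup.zpowers y ∈ {Q : Subgroup G | Q ≤ H ∧ IsPGroup p Q ∧
          H ≤ Subgroup.normalizer (Q : Set G)} := by
        refine ⟨by rwa [Subgroup.zpowers_le], ?_, ?_⟩
        · obtain ⟨k, hk⟩ := hyp
          intro z
          refine ⟨k, ?_⟩
          obtain ⟨z, hz⟩ := z
          obtain ⟨i, hi⟩ := Subgroup.mem_zpowers_iff.1 hz
          apply Subtype.ext
          show z ^ p ^ k = 1
          rw [← hi, ← zpow_natCast, ← zpow_mul, mul_comm, zpow_mul, zpow_natCast, hk, one_zpow]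
        · refine le_trans ?_ (Subgroup.centralizer_le_normalizer _)
          intro k hk
          rw [Subgroup.mem_centralizer_iff]
          intro z hz
          obtain ⟨i, hi⟩ := Subgroup.mem_zpowers_iff.1 hz
          rw [← hi]
          have hc : Commute k y := hyc k hk
          exact ((hc.zpow_right i).eq).symm
      have h2 := hY.2 h1
      rw [hYb] at h2
      have h3 : y ∈ (⊥ : Subgroup G) := h2 (Subgroup.mem_zpowers y)
      simpa using h3
    obtain ⟨r, hr⟩ := LLB_dec p hp.out κ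
    set μ : G := κ ^ r with hμ
    set κ₁ : G := κ * μ ^ (-(p : ℤ)) with hκ₁
    have hμH : μ ∈ H := H.zpow_mem hκ r
    have hκ₁H : κ₁ ∈ H := H.mul_mem hκ (H.zpow_mem hμH _)
    have c1 : Commute h₀ κ := hcomm
    have c2 : Commute h₀ μ := c1.zpow_right r
    have c3 : Commute μ κ := (Commute.refl κ).zpow_left r
    have c4 : Commute μ κ₁ := c3.mul_right ((Commute.refl μ).zpow_right _)
    have c5 : Commute h₀ κ₁ := c1.mul_right (c2.zpow_right _)
    have hκeq : κ₁ * μ ^ p = κ := by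
      rw [hκ₁, mul_assoc, ← zpow_natCast, ← zpow_add]
      simp
    have hpow : ∀ h : G, Commute h μ → (μ⁻¹ * h) ^ p = (μ ^ p)⁻¹ * h ^ p := by
      intro h hc
      rw [(hc.symm.inv_left).mul_pow, inv_pow]
    have key := hLLR G p H (μ⁻¹ * h₀) κ₁ ?_ hκ₁H ?_ ?_ hr hcen
    · have hsum : (∑ᶠ h ∈ {h : G | h₀⁻¹ * h ∈ cz H ∧ h ^ p = κ}, W p (H ⊔ Subgroup.zpowers h)) =
          ∑ᶠ h ∈ {h : G | (μ⁻¹ * h₀)⁻¹ * h ∈ cz H ∧ h ^ p = κ₁}, W p (H ⊔ Subgroup.zpowers h) := by
        have hcomm' : ∀ h : G, h₀⁻¹ * h ∈ cz H → Commute h μ := by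
          intro h hh
          have h1 : Commute (h₀⁻¹ * h) μ := by
            rw [Subgroup.mem_centralizer_iff] at hh
            exact (hh μ hμH).symm
          have h2 : h = h₀ * (h₀⁻¹ * h) := by group
          rw [h2]
          exact c2.mul_left h1
        refine finsum_mem_eq_of_bijOn (fun h => μ⁻¹ * h) ⟨?_, ?_, ?_⟩ ?_
        · rintro h ⟨h1, h2⟩
          refine ⟨?_, ?_⟩
          · have h3 : (μ⁻¹ * h₀)⁻¹ * (μ⁻¹ * h) = h₀⁻¹ * h := by group
            show (μ⁻¹ * h₀)⁻¹ * (μ⁻¹ * h) ∈ cz H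
            rw [h3]
            exact h1
          · show (μ⁻¹ * h) ^ p = κ₁
            rw [hpow h (hcomm' h h1), h2, ← hκeq, (c4.pow_left p).eq.symm]
            group
        · intro h _ h' _ hhh
          exact mul_left_cancel hhh
        · rintro u ⟨h1, h2⟩
          have e1 : h₀⁻¹ * (μ * u) ∈ cz H := by
            have h3 : (μ⁻¹ * h₀)⁻¹ * u = h₀⁻¹ * (μ * u) := by group
            rw [← h3]
            exact h1
          refine ⟨μ * u, ⟨e1, ?_⟩, ?_⟩
          · have h4 : Commute (μ * u) μ := hcomm' _ e1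
            have h5 := hpow (μ * u) h4
            have h6 : μ⁻¹ * (μ * u) = u := by group
            rw [h6, h2] at h5
            have h7 : μ ^ p * κ₁ = (μ * u) ^ p := by
              rw [h5]; group
            rw [← h7, (c4.pow_left p).eq, hκeq]
          · show μ⁻¹ * (μ * u) = u
            group
        · rintro h -
          congr 1
          apply le_antisymm
          · rw [sup_le_iff]
            refine ⟨le_sup_left, ?_⟩
            rw [Subgroup.zpowers_le]
            have h3 : h = μ * (μ⁻¹ * h) := by group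
            have h4 : μ * (μ⁻¹ * h) ∈ H ⊔ Subgroup.zpowers (μ⁻¹ * h) :=
              Subgroup.mul_mem _ (Subgroup.mem_sup_left hμH)
                (Subgroup.mem_sup_right (Subgroup.mem_zpowers _))
            rw [← h3] at h4
            exact h4
          · rw [sup_le_iff]
            refine ⟨le_sup_left, ?_⟩
            rw [Subgroup.zpowers_le]
            exact Subgroup.mul_mem _ (Subgroup.mem_sup_left (H.inv_mem hμH))
                (Subgroup.mem_sup_right (Subgroup.mem_zpowers _))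
      rw [hsum]
      exact key
    · exact (nz H).mul_mem (Subgroup.le_normalizer (H.inv_mem hμH)) hh₀
    · exact ((c4.inv_left).mul_left c5).eq
    · rw [hpow h₀ c2, ← mul_assoc]
      have h3 : κ₁⁻¹ * (μ ^ p)⁻¹ = κ⁻¹ := by
        rw [← mul_inv_rev, (c4.pow_left p).eq, hκeq]
      rw [h3]
      exact hC
  · -- Case A
    have h1 : W p H = 0 := hW2 H Y hYp hYH hHY hYb
    have h2 : (∑ᶠ h ∈ {h : G | h₀⁻¹ * h ∈ cz H ∧ h ^ p = κ}, W p (H ⊔ Subgroup.zpowers h)) = 0 := by
      apply finsum_mem_eq_zero_of_forall_eq_zero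
      rintro h ⟨h3, -⟩
      refine hW2 _ Y hYp (hYH.trans le_sup_left) ?_ hYb
      rw [sup_le_iff]
      refine ⟨hHY, ?_⟩
      rw [Subgroup.zpowers_le]
      apply hnn
      have h4 : h = h₀ * (h₀⁻¹ * h) := by group
      rw [h4]
      exact (nz H).mul_mem hh₀ (LLB_cz_le_nz H h3)
    rw [h1, h2, sub_zero]
    exact dvd_zero _

end Pool.Agent.OB
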